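import Mathlib

set_option autoImplicit false

open Filter Topology Finset UniformSpace
open scoped ZeroAtInfty

namespace Pool.Agent.Results.MP_de5a3f_an.Exists

/-- `‖x‖_𝓕` for finitely supported `x` on the binary tree. -/
noncomputable def nrm (𝓕 : Set (Finset (List Bool))) (x : List Bool →₀ ℝ) : ℝ :=
  ⨆ F : 𝓕, ∑ k ∈ F.1, |x k|

/-- `c₀₀(H)`: finitely supported vectors with support in `H`, to be normed by `‖·‖_𝓕`. -/
def C00 (_ : Set (Finset (List Bool))) (H : Set (List Bool)) : Type :=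
  Finsupp.supported ℝ ℝ H

variable {𝓕 : Set (Finset (List Bool))} {H : Set (List Bool)}

lemma sum_le (x : List Bool →₀ ℝ) (F : Finset (List Bool)) {U : Finset (List Bool)}
    (hU : x.support ⊆ U) : ∑ k ∈ F, |x k| ≤ ∑ k ∈ U, |x k| :=
  (sum_filter_ne_zero F).ge.trans (sum_le_sum_of_subset_of_nonneg (fun _ h => hU
    (Finsupp.mem_support_iff.2 (abs_ne_zero.1 (mem_filter.1 h).2))) fun _ _ _ => abs_nonneg _)

lemma le_nrm (x : List Bool →₀ ℝ) {F : Finset (List Bool)} (hF : F ∈ 𝓕) :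
    ∑ k ∈ F, |x k| ≤ nrm 𝓕 x :=
  le_ciSup (f := fun F : 𝓕 => ∑ k ∈ F.1, |x k|)
    ⟨_, Set.forall_mem_range.2 fun F => sum_le x F.1 Subset.rfl⟩ ⟨F, hF⟩

lemma nrm_nonneg (x : List Bool →₀ ℝ) : 0 ≤ nrm 𝓕 x :=
  Real.iSup_nonneg fun _ => sum_nonneg fun _ _ => abs_nonneg _

noncomputable instance : AddCommGroup (C00 𝓕 H) :=
  inferInstanceAs (AddCommGroup (Finsupp.supported ℝ ℝ H))

noncomputable instance : Module ℝ (C00 𝓕 H) := inferInstanceAs (Module ℝ (Finsupp.supported ℝ ℝ H))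

noncomputable instance : Norm (C00 𝓕 H) := ⟨fun x => nrm 𝓕 x.1⟩

lemma core : SeminormedSpace.Core ℝ (C00 𝓕 H) where
  norm_nonneg x := nrm_nonneg x.1
  norm_smul c x := by
    change nrm 𝓕 (c • x.1) = |c| * nrm 𝓕 x.1
    simp [nrm, Real.mul_iSup_of_nonneg (abs_nonneg c), mul_sum, abs_mul]
  norm_triangle x y := Real.iSup_le (fun F => (sum_le_sum fun k _ => abs_add_le (x.1 k) (y.1 k)).trans
    (sum_add_distrib.trans_le (add_le_add (le_nrm _ F.2) (le_nrm _ F.2))))
    (add_nonneg (nrm_nonneg _) (nrm_nonneg _))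

noncomputable instance : SeminormedAddCommGroup (C00 𝓕 H) := .ofCore core

noncomputable instance : NormedSpace ℝ (C00 𝓕 H) := ⟨fun c x => (core.norm_smul c x).le⟩

/-- The completion `X_{𝓕↾H}` contains a subspace isomorphic to `c₀`. -/
def HasC0 (𝓕 : Set (Finset (List Bool))) (H : Set (List Bool)) : Prop :=
  ∃ T : C₀(ℕ, ℝ) →L[ℝ] Completion (C00 𝓕 H), ∃ c > 0, ∀ a, c * ‖a‖ ≤ ‖T a‖

/-- `H` is a union of finitely many antichains for the extension order. -/
def FinAnti (H : Set (List Bool)) : Prop :=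
  ∃ (k : ℕ) (A : Fin k → Set (List Bool)), (∀ i, IsAntichain (· <+: ·) (A i)) ∧ H = ⋃ i, A i

def G : Set (Finset (List Bool)) :=
  {F | IsAntichain (· <+: ·) (F : Set (List Bool)) ∨ ∀ t ∈ F, F.card ≤ t.length}

lemma single_mem (t : List Bool) : {t} ∈ G := Or.inl (by simp [IsAntichain])

lemma coe_sum (A : Finset ℕ) (s : ℕ → ℝ) (z : ℕ → C00 𝓕 H) (t : List Bool) :
    (∑ n ∈ A, s n • z n).1 t = ∑ n ∈ A, s n * (z n).1 t := by
  classical
  induction A using Finset.induction_on with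
  | empty => rfl
  | insert a A h ih => rw [sum_insert h, sum_insert h, ← ih]; rfl

lemma cmp_sum (A : Finset ℕ) (s : ℕ → ℝ) (z : ℕ → C00 𝓕 H) :
    ‖∑ n ∈ A, s n • (z n : Completion (C00 𝓕 H))‖ = ‖∑ n ∈ A, s n • z n‖ := by
  rw [← (Completion.toComplₗᵢ (𝕜 := ℝ)).norm_map (∑ n ∈ A, s n • z n)]; simp

lemma no_c0 (h : FinAnti H) : ¬ HasC0 G H := by
  classical
  rintro ⟨T, c, hc, hT⟩
  obtain ⟨k, A, hA, rfl⟩ := h
  have l1 : ∀ (x : C00 G (⋃ i, A i)) U, ∑ t ∈ U, |x.1 t| ≤ k * ‖x‖ := fun x U => by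
    refine (sum_le x.1 U Subset.rfl).trans ((sum_le_sum (g := fun t =>
      ∑ i, if t ∈ A i then |x.1 t| else 0) fun t ht => ?_).trans ?_)
    · obtain ⟨i, hi⟩ := Set.mem_iUnion.1 (x.2 ht)
      exact (if_pos hi).ge.trans (single_le_sum (f := fun i => if t ∈ A i then |x.1 t| else 0)
        (fun i _ => by positivity) (mem_univ i))
    · rw [sum_comm]
      refine (sum_le_card_nsmul _ _ ‖x‖ fun i _ => ?_).trans (by simp)
      rw [← sum_filter]
      exact le_nrm _ (Or.inl ((hA i).subset fun t ht => (mem_filter.1 ht).2))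
  let e : ℕ → C₀(ℕ, ℝ) := fun n => ⟨⟨Pi.single n 1, continuous_of_discreteTopology⟩, by
    rw [cocompact_eq_cofinite]
    exact tendsto_const_nhds.congr' ((Set.finite_singleton n).eventually_cofinite_notMem.mono
      fun m hm => (Pi.single_eq_of_ne (M := fun _ => ℝ) hm _).symm)⟩
  have he : ∀ (B : Finset ℕ) (s : ℕ → ℝ) m, (∑ n ∈ B, s n • e n) m = if m ∈ B then s m else 0 := by
    intro B s m
    induction B using Finset.induction_on with
    | empty => simp
    | insert a B h ih =>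
      rw [sum_insert h, ZeroAtInftyContinuousMap.add_apply, ih]
      by_cases h' : m = a <;> simp [e, h', h]
  choose z hz using fun n => (Completion.denseRange_coe (α := C00 G (⋃ i, A i))).exists_dist_lt
    (T (e n)) (show 0 < c / 2 * (1 / 2) ^ n by positivity)
  simp only [dist_eq_norm] at hz
  have z1 : ∀ n, c / 2 ≤ ‖z n‖ := fun n => by
    have h1 : (1 : ℝ) ≤ ‖e n‖ := by simpa [e] using (e n).toBCF.norm_coe_le_norm n
    have h2 := norm_sub_norm_le (T (e n)) (z n)
    rw [Completion.norm_coe] at h2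
    nlinarith [hz n, hT (e n), pow_le_one₀ (n := n) (by norm_num : (0 : ℝ) ≤ 1 / 2) (by norm_num)]
  have z2 : ∀ (B : Finset ℕ) (s : ℕ → ℝ), (∀ n, |s n| ≤ 1) → ‖∑ n ∈ B, s n • z n‖ ≤ ‖T‖ + c := by
    intro B s hs
    have h1 : ‖∑ n ∈ B, s n • e n‖ ≤ 1 := (BoundedContinuousFunction.norm_le zero_le_one).2
      fun m => (congrArg _ (he B s m)).trans_le (by split_ifs <;> simp [hs])
    have h2 : ‖∑ n ∈ B, s n • (T (e n) - z n)‖ ≤ c := (norm_sum_le_of_le B (n := fun n =>
      c / 2 * (1 / 2) ^ n) fun n _ => (norm_smul_le _ _).trans ((mul_le_of_le_one_left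
        (norm_nonneg _) (hs n)).trans (hz n).le)).trans (by
      have := summable_geometric_two.sum_le_tsum B fun _ _ => by positivity
      rw [tsum_geometric_two] at this
      rw [← mul_sum]; nlinarith)
    have h3 := T.le_of_opNorm_le_of_le le_rfl h1
    rw [← cmp_sum, show ∑ n ∈ B, s n • (z n : Completion _) = T (∑ n ∈ B, s n • e n) -
      ∑ n ∈ B, s n • (T (e n) - z n) by simp [smul_sub]]
    linarith [norm_sub_le (T (∑ n ∈ B, s n • e n)) (∑ n ∈ B, s n • (T (e n) - z n))]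
  have z3 : ∀ t, Tendsto (fun n => |(z n).1 t|) atTop (𝓝 0) := fun t =>
    (summable_of_sum_le (fun _ => abs_nonneg _) fun B => by
      refine le_trans ?_ ((le_nrm _ (single_mem t)).trans
        (z2 B (fun n => SignType.sign ((z n).1 t)) fun n => by
          cases SignType.sign ((z n).1 t) <;> simp))
      rw [sum_singleton, coe_sum]
      simp only [sign_mul_self]
      exact le_abs_self _).tendsto_atTop_zero
  have : ∀ N : ℕ, ∃ (B : Finset ℕ) (U : Finset (List Bool)), (∑ n ∈ B, (1 : ℝ) • z n).1.support ⊆ U ∧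
      N * (c / 4) ≤ ∑ t ∈ U, |(∑ n ∈ B, (1 : ℝ) • z n).1 t| := fun N => by
    induction N with
    | zero => exact ⟨∅, _, Subset.rfl, by simpa using sum_nonneg fun _ _ => abs_nonneg _⟩
    | succ N ih =>
      obtain ⟨B, U, h1, h2⟩ := ih
      obtain ⟨n, h3, h4⟩ := (((tendsto_finset_sum U fun t _ => z3 t).eventually (gt_mem_nhds
        (show _ < c / 8 by simpa))).and (eventually_gt_atTop (B.sup id))).exists
      have h5 : n ∉ B := fun h => h4.not_ge (le_sup (f := id) h)
      refine ⟨insert n B, U ∪ (z n).1.support, ?_⟩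
      rw [sum_insert h5, one_smul]
      generalize ∑ n ∈ B, (1 : ℝ) • z n = w at *
      refine ⟨Finsupp.support_add.trans (union_subset subset_union_right
        (h1.trans subset_union_left)), ?_⟩
      have h6 : ‖z n‖ ≤ ∑ t ∈ U ∪ (z n).1.support, |(z n).1 t| :=
        Real.iSup_le (fun F => sum_le _ _ subset_union_right) (sum_nonneg fun _ _ => abs_nonneg _)
      rw [← sum_sdiff subset_union_left] at h6 ⊢
      have h7 : ∑ t ∈ (U ∪ (z n).1.support) \ U, |(z n + w).1 t| =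
          ∑ t ∈ (U ∪ (z n).1.support) \ U, |(z n).1 t| := sum_congr rfl fun t ht => by
        change |(z n).1 t + w.1 t| = _
        rw [Finsupp.notMem_support_iff.1 fun h => (mem_sdiff.1 ht).2 (h1 h), add_zero]
      have h8 : ∑ t ∈ U, |w.1 t| ≤ ∑ t ∈ U, |(z n + w).1 t| + ∑ t ∈ U, |(z n).1 t| := by
        rw [← sum_add_distrib]
        exact sum_le_sum fun t _ => by
          change _ ≤ |(z n).1 t + w.1 t| + _
          simpa using abs_sub ((z n).1 t + w.1 t) ((z n).1 t)
      push_cast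
      linarith [z1 n]
  obtain ⟨N, hN⟩ := exists_nat_gt (k * (‖T‖ + c) / (c / 4))
  obtain ⟨B, U, -, h⟩ := this N
  rw [div_lt_iff₀ (by positivity)] at hN
  linarith [l1 (∑ n ∈ B, (1 : ℝ) • z n) U, mul_le_mul_of_nonneg_left (z2 B (fun _ => 1) (by simp))
    (Nat.cast_nonneg (α := ℝ) k)]

lemma chains (h : ¬ FinAnti H) (l : ℕ) : ∃ (C : Finset (List Bool)) (t : List Bool), C.card = l ∧
    ∀ s ∈ C, s ∈ H ∧ l ≤ s.length ∧ s <+: t := by
  classical
  let P := fun t : List Bool => t.inits.toFinset.filter (· ∈ H)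
  have hP : ∀ s t, s ∈ P t ↔ s <+: t ∧ s ∈ H := by simp [P]
  obtain ⟨t, ht⟩ : ∃ t, 2 * l ≤ (P t).card := by
    by_contra hn
    push Not at hn
    refine h ⟨2 * l, fun i => {t ∈ H | (P t).card = i}, fun i s hs t ht hne hst => ?_,
      Set.ext fun t => ⟨fun h => Set.mem_iUnion.2 ⟨⟨_, hn t⟩, h, rfl⟩,
        fun h => (Set.mem_iUnion.1 h).elim fun _ h => h.1⟩⟩
    refine (card_lt_card ⟨fun u hu => (hP _ _).2 ⟨((hP _ _).1 hu).1.trans hst, ((hP _ _).1 hu).2⟩,
      fun h => hne (hst.eq_of_length_le ((hP _ _).1 (h ((hP _ _).2 ⟨List.prefix_rfl, ht.1⟩))).1.length_le)⟩).ne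
        (hs.2.trans ht.2.symm)
  have h1 : ((P t).filter fun s => ¬ l ≤ s.length).card ≤ (range l).card :=
    card_le_card_of_injOn List.length (fun s hs => by simpa using (mem_filter.1 hs).2)
      fun s hs u hu h => (List.prefix_of_prefix_length_le ((hP _ _).1 (mem_filter.1 hs).1).1
        ((hP _ _).1 (mem_filter.1 hu).1).1 h.le).eq_of_length h
  have h2 := card_filter_add_card_filter_not (s := P t) fun s => l ≤ s.length
  obtain ⟨C, h3, h4⟩ := exists_subset_card_eq (s := (P t).filter fun s => l ≤ s.length) (n := l)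
    (by rw [card_range] at h1; omega)
  exact ⟨C, t, h4, fun s hs => ⟨((hP _ _).1 (mem_filter.1 (h3 hs)).1).2, (mem_filter.1 (h3 hs)).2,
    ((hP _ _).1 (mem_filter.1 (h3 hs)).1).1⟩⟩

lemma has_c0 (h : ¬ FinAnti H) : HasC0 G H := by
  classical
  choose C t hC hC' using chains h
  obtain ⟨l, l0, hl⟩ : ∃ l : ℕ → ℕ, l 0 = 1 ∧ ∀ n, l (n + 1) = 2 ^ (n + 1) * ((t (l n)).length + 1) :=
    ⟨fun n => Nat.rec 1 (fun n l => 2 ^ (n + 1) * ((t l).length + 1)) n, rfl, fun _ => rfl⟩
  have lp : ∀ n, 0 < l n := fun n => by cases n <;> simp [l0, hl]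
  have l1 : ∀ n, l n ≤ (t (l n)).length := fun n => by
    obtain ⟨s, hs⟩ := card_pos.1 ((lp n).trans_eq (hC _).symm)
    exact (hC' _ s hs).2.1.trans (hC' _ s hs).2.2.length_le
  have l2 : ∀ n, (t (l n)).length < l (n + 1) := fun n => by
    rw [hl]; nlinarith [Nat.one_le_two_pow (n := n + 1)]
  have tm : Monotone fun n => (t (l n)).length :=
    monotone_nat_of_le_succ fun n => (l2 n).le.trans (l1 _)
  have l3 : ∀ m n, m < n → 2 ^ n * ((t (l m)).length + 1) ≤ l n := fun m n h => by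
    obtain ⟨n, rfl⟩ := Nat.exists_eq_succ_of_ne_zero (Nat.ne_zero_of_lt h)
    rw [hl]
    exact Nat.mul_le_mul_left _ (Nat.succ_le_succ (tm (Nat.le_of_lt_succ h)))
  have disj : ∀ m n s, s ∈ C (l m) → s ∈ C (l n) → m = n := fun m n s h1 h2 => by
    have : ∀ m n, s ∈ C (l m) → s ∈ C (l n) → ¬ m < n := fun m n h1 h2 h => by
      have := l3 m n h
      have := (hC' _ s h1).2.2.length_le
      have := (hC' _ s h2).2.1
      nlinarith [Nat.one_le_two_pow (n := n)]
    exact le_antisymm (not_lt.1 (this _ _ h2 h1)) (not_lt.1 (this _ _ h1 h2))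
  let x : ℕ → C00 G H := fun n => ⟨Finsupp.onFinset (C (l n))
    (fun s => if s ∈ C (l n) then 1 / l n else 0) fun s h => by_contra fun h' => h (if_neg h'),
    fun s hs => (hC' _ s (Finsupp.support_onFinset_subset hs)).1⟩
  have hx : ∀ n s, (x n).1 s = if s ∈ C (l n) then 1 / (l n : ℝ) else 0 := fun _ _ => rfl
  have lp' : ∀ n, (0 : ℝ) < l n := fun n => by exact_mod_cast lp n
  have up : ∀ (B : Finset ℕ) (a : ℕ → ℝ) ε, 0 ≤ ε → (∀ n ∈ B, |a n| ≤ ε) →
      ‖∑ n ∈ B, a n • x n‖ ≤ 3 * ε := fun B a ε hε ha => Real.iSup_le (fun F => by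
    obtain ⟨m, hm⟩ : ∃ m, ∀ n ≠ m, 2 ^ n * (F.1.filter (· ∈ C (l n))).card ≤ l n := by
      rcases F.2 with h | h
      · refine ⟨0, fun n hn => (Nat.mul_le_mul_left _ ((card_le_one.2 fun a ha b hb => ?_).trans
          (Nat.le_add_left _ _))).trans (l3 0 n (Nat.pos_of_ne_zero hn))⟩
        rw [mem_filter] at ha hb
        rcases List.prefix_or_prefix_of_prefix (hC' _ a ha.2).2.2 (hC' _ b hb.2).2.2 with h' | h'
        exacts [h.eq ha.1 hb.1 h', (h.eq hb.1 ha.1 h').symm]
      · by_cases h' : ∃ m, ∃ s ∈ F.1, s ∈ C (l m)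
        · obtain ⟨s, h1, h2⟩ := Nat.find_spec h'
          refine ⟨Nat.find h', fun n hn => ?_⟩
          rcases hn.lt_or_gt with hn | hn
          · rw [filter_false_of_mem fun s h1 h2 => Nat.find_min h' hn ⟨s, h1, h2⟩]; simp
          · exact (Nat.mul_le_mul_left _ ((card_filter_le _ _).trans ((h s h1).trans
              ((hC' _ s h2).2.2.length_le.trans (Nat.le_succ _))))).trans (l3 _ _ hn)
        · exact ⟨0, fun n _ => by rw [filter_false_of_mem fun s h1 h2 => h' ⟨n, s, h1, h2⟩]; simp⟩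
    have h1 : ∀ n ∈ B, ∑ s ∈ F.1, |a n * (x n).1 s| ≤ ε * ((1 / 2) ^ n + if n = m then 1 else 0) := by
      intro n hn
      simp only [abs_mul, ← mul_sum, hx, apply_ite abs, abs_zero, ← sum_filter, sum_const,
        nsmul_eq_mul, abs_of_pos (one_div_pos.2 (lp' n))]
      refine mul_le_mul (ha n hn) ?_ (by positivity) hε
      rw [mul_one_div, div_le_iff₀ (lp' n)]
      split_ifs with h
      · have : ((F.1.filter (· ∈ C (l n))).card : ℝ) ≤ l n := by
          exact_mod_cast (card_le_card fun s hs => (mem_filter.1 hs).2).trans (hC _).le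
        nlinarith [lp' n, pow_pos (show (0 : ℝ) < 1 / 2 by norm_num) n]
      · rw [add_zero, one_div_pow, div_mul_eq_mul_div, le_div_iff₀' (by positivity), one_mul]
        exact_mod_cast hm n h
    have h2 := summable_geometric_two.sum_le_tsum B fun _ _ => by positivity
    rw [tsum_geometric_two] at h2
    simp only [coe_sum]
    refine (sum_le_sum fun s _ => abs_sum_le_sum_abs _ _).trans ?_
    rw [sum_comm]
    refine (sum_le_sum h1).trans ?_
    rw [← mul_sum, sum_add_distrib, sum_ite_eq', mul_comm]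
    split_ifs <;> nlinarith) (by positivity)
  have low : ∀ (B : Finset ℕ) (a : ℕ → ℝ), ∀ n ∈ B, |a n| ≤ ‖∑ n ∈ B, a n • x n‖ := fun B a n hn => by
    refine le_trans (le_of_eq ?_) (le_nrm _ (F := C (l n))
      (Or.inr fun s hs => (hC _).trans_le (hC' _ s hs).2.1))
    rw [sum_congr rfl (g := fun _ => |a n| / l n), sum_const, hC, nsmul_eq_mul,
      mul_div_cancel₀ _ (lp' n).ne']
    intro s hs
    rw [coe_sum, sum_eq_single_of_mem n hn fun m _ h => by
      rw [hx, if_neg fun h' => h (disj _ _ _ h' hs), mul_zero], hx, if_pos hs, mul_one_div, abs_div,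
      abs_of_pos (lp' n)]
  have hs : ∀ a : C₀(ℕ, ℝ), Summable fun n => a n • (x n : Completion (C00 G H)) := fun a =>
    summable_iff_vanishing_norm.2 fun ε hε => by
      have := zero_at_infty a
      rw [cocompact_eq_cofinite, Nat.cofinite_eq_atTop, Metric.tendsto_atTop] at this
      obtain ⟨N, hN⟩ := this (ε / 4) (by positivity)
      refine ⟨range N, fun B hB => (cmp_sum ..).trans_lt ((up B a (ε / 4) (by positivity)
        fun n hn => ?_).trans_lt (by linarith))⟩
      simpa using (hN n (by simpa using disjoint_left.1 hB hn)).le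
  refine ⟨LinearMap.mkContinuous ⟨⟨fun a => ∑' n, a n • (x n : Completion (C00 G H)), fun a b => by
    simp [add_smul, (hs a).tsum_add (hs b)]⟩, fun c a => by
    simp [mul_smul, (hs a).tsum_const_smul c]⟩ 3 fun a => le_of_tendsto' (hs a).hasSum.norm
      fun B => (cmp_sum ..).trans_le (up B a _ (norm_nonneg a) fun n _ => a.toBCF.norm_coe_le_norm n),
    1, one_pos, fun a => (one_mul _).trans_le ((BoundedContinuousFunction.norm_le (norm_nonneg _)).2
      fun n => ge_of_tendsto (hs a).hasSum.norm ((eventually_ge_atTop {n}).mono fun B hB =>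
        (low B a n (singleton_subset_iff.1 hB)).trans_eq (cmp_sum ..).symm))⟩

theorem result : ∃ 𝓕 : Set (Finset (List Bool)), (∀ t, ∃ F ∈ 𝓕, t ∈ F) ∧
    ∀ H : Set (List Bool), ¬ HasC0 𝓕 H ↔ FinAnti H :=
  ⟨G, fun t => ⟨_, single_mem t, mem_singleton_self t⟩, fun _ => ⟨not_imp_comm.1 has_c0, no_c0⟩⟩

end Pool.Agent.Results.MP_de5a3f_an.Exists
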